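import Mathlib

namespace Pool.Agent.H.MP_fb4a47_lc

/-! Two power-free binary sequences. -/

def h (a : Bool) (r : ℕ) : Bool :=
  if r = 1 then true else if r = 3 then !a else if r = 4 then a else false

def Uf : ℕ → ℕ → Bool
  | 0, _ => false
  | k + 1, n => h (Uf k (n / 5)) (n % 5)

def U (n : ℕ) : Bool := Uf n n

theorem Uf_eq (k : ℕ) : ∀ k' n, n ≤ k → n ≤ k' → Uf k n = Uf k' n := by
  induction k with
  | zero =>
    intro k' n h1 _
    obtain rfl : n = 0 := by omega
    cases k' <;> simp [Uf, h]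
  | succ k ih =>
    intro k' n h1 h2
    cases k' with
    | zero =>
      obtain rfl : n = 0 := by omega
      simp [Uf, h]
    | succ k' => rw [Uf, Uf, ih k' _ (by omega) (by omega)]

theorem U_eq (n : ℕ) : U n = h (U (n / 5)) (n % 5) := by
  cases n with
  | zero => rfl
  | succ n => rw [U, Uf, U, Uf_eq n ((n + 1) / 5) _ (by omega) le_rfl]

def g (a b c d e : Bool) (j : ℕ) : Bool := h ([a, b, c, d, e].getD (j / 5) false) (j % 5)

theorem U_g (b j : ℕ) (hj : j < 25) :
    U (5 * b + j) = g (U b) (U (b + 1)) (U (b + 2)) (U (b + 3)) (U (b + 4)) j := by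
  rw [U_eq, g, show (5 * b + j) / 5 = b + j / 5 by omega, show (5 * b + j) % 5 = j % 5 by omega]
  have : j / 5 < 5 := by omega
  generalize j / 5 = t at this
  interval_cases t <;> rfl

theorem no11 (n : ℕ) : ¬ (U n = true ∧ U (n + 1) = true) := by
  have k : ∀ r < 5, ∀ a b c d e : Bool, ¬ (g a b c d e r = true ∧ g a b c d e (r + 1) = true) := by
    decide +kernel
  have := k (n % 5) (by omega) (U (n / 5)) (U (n / 5 + 1)) (U (n / 5 + 2)) (U (n / 5 + 3))
    (U (n / 5 + 4))
  rw [← U_g _ _ (by omega), ← U_g _ _ (by omega)] at this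
  rwa [show 5 * (n / 5) + n % 5 = n by omega, show 5 * (n / 5) + (n % 5 + 1) = n + 1 by omega] at this

theorem k1 : ∀ r < 5, ∀ q < 5, 0 < q → ∀ a b c d e : Bool,
    ¬ ∀ i < 3 * q, g a b c d e (r + i) = g a b c d e (r + i + q) := by decide +kernel

def K0 (r r' : ℕ) (a b c d e a' b' c' d' e' : Bool) : Bool :=
  (b && c) || (b' && c') || !((List.range 18).all fun i => g a b c d e (r + i) == g a' b' c' d' e' (r' + i))

def K (r r' : ℕ) (a b c d e : Bool) : Bool :=
  decide (∀ a' b' c' d' e' : Bool, K0 r r' a b c d e a' b' c' d' e' = true)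

def K2 (r r' : ℕ) : Bool := decide (∀ a b c d e : Bool, K r r' a b c d e = true)

theorem k2' : ∀ r < 5, ∀ r' < 5, r ≠ r' → K2 r r' = true := by decide +kernel

theorem k2 : ∀ r < 5, ∀ r' < 5, r ≠ r' → ∀ a b c d e a' b' c' d' e' : Bool,
    ¬ (b = true ∧ c = true) → ¬ (b' = true ∧ c' = true) →
    ¬ ∀ i < (18 : ℕ), g a b c d e (r + i) = g a' b' c' d' e' (r' + i) := by
  intro r h r' h' hn a b c d e a' b' c' d' e' h1 h2 H
  have := of_decide_eq_true (of_decide_eq_true (k2' r h r' h' hn) a b c d e) a' b' c' d' e'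
  simp only [K0, Bool.or_eq_true, Bool.and_eq_true, h1, h2, false_or, Bool.not_eq_true',
    List.all_eq_false, List.mem_range, beq_iff_eq] at this
  obtain ⟨i, hi, e⟩ := this
  exact e (H i hi)

theorem U_pf (q : ℕ) : 0 < q → ∀ s, ¬ ∀ i < 3 * q, U (s + i) = U (s + i + q) := by
  induction q using Nat.strong_induction_on with
  | _ q ih =>
    intro hq s H
    by_cases h5 : q % 5 = 0
    · refine ih (q / 5) (by omega) (by omega) ((s + 1) / 5) fun i hi => ?_
      have := H (5 * ((s + 1) / 5 + i) + 3 - s) (by omega)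
      rw [U_eq, U_eq (_ + q),
        show (s + (5 * ((s + 1) / 5 + i) + 3 - s)) / 5 = (s + 1) / 5 + i by omega,
        show (s + (5 * ((s + 1) / 5 + i) + 3 - s)) % 5 = 3 by omega,
        show (s + (5 * ((s + 1) / 5 + i) + 3 - s) + q) / 5 = (s + 1) / 5 + i + q / 5 by omega,
        show (s + (5 * ((s + 1) / 5 + i) + 3 - s) + q) % 5 = 3 by omega] at this
      simpa [h] using this
    by_cases h4 : q < 5
    · refine k1 (s % 5) (by omega) q h4 hq (U (s / 5)) (U (s / 5 + 1)) (U (s / 5 + 2))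
        (U (s / 5 + 3)) (U (s / 5 + 4)) fun i hi => ?_
      rw [← U_g _ _ (by omega), ← U_g _ _ (by omega)]
      convert H i hi using 2 <;> omega
    · refine k2 (s % 5) (by omega) ((s + q) % 5) (by omega) (by omega) (U (s / 5)) (U (s / 5 + 1))
        (U (s / 5 + 2)) (U (s / 5 + 3)) (U (s / 5 + 4)) (U ((s + q) / 5)) (U ((s + q) / 5 + 1))
        (U ((s + q) / 5 + 2)) (U ((s + q) / 5 + 3)) (U ((s + q) / 5 + 4)) (no11 _) (no11 _)
        fun i hi => ?_
      rw [← U_g _ _ (by omega), ← U_g _ _ (by omega)]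
      convert H i (by omega) using 2 <;> omega

theorem k3 : ∀ j < 435, 87 ≤ j → ∃ q < j, 0 < q ∧ 2 * q ≤ j ∧
    ∀ i ≤ q, U (j - 2 * q + i + q) = U (j - 2 * q + i) := by decide +kernel

theorem U_cov (j : ℕ) : 87 ≤ j → ∃ a q, 0 < q ∧ j = a + 2 * q ∧
    ∀ i ≤ q, U (a + i + q) = U (a + i) := by
  induction j using Nat.strong_induction_on with
  | _ j ih =>
    intro hj
    by_cases h1 : j < 435
    · obtain ⟨q, _, a, b, c⟩ := k3 j h1 hj
      exact ⟨j - 2 * q, q, a, by omega, c⟩
    · obtain ⟨a, q, hq, e, H⟩ := ih (j / 5) (by omega) (by omega)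
      refine ⟨5 * a + j % 5, 5 * q, by omega, by omega, fun i hi => ?_⟩
      rw [U_eq, U_eq (_ + i),
        show (5 * a + j % 5 + i + 5 * q) / 5 = a + (j % 5 + i) / 5 + q by omega,
        show (5 * a + j % 5 + i) / 5 = a + (j % 5 + i) / 5 by omega, H _ (by omega)]
      congr 1; omega

def Tf : ℕ → ℕ → Bool
  | 0, _ => false
  | k + 1, n => xor (Tf k (n / 2)) (n % 2 = 1)

def T (n : ℕ) : Bool := Tf n n

theorem Tf_zero (k : ℕ) : Tf k 0 = false := by
  induction k with
  | zero => rfl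
  | succ k ih => simp [Tf, ih]

theorem Tf_eq (k : ℕ) : ∀ k' n, n ≤ k → n ≤ k' → Tf k n = Tf k' n := by
  induction k with
  | zero =>
    intro k' n h1 _
    obtain rfl : n = 0 := by omega
    rw [Tf_zero, Tf_zero]
  | succ k ih =>
    intro k' n h1 h2
    cases k' with
    | zero =>
      obtain rfl : n = 0 := by omega
      rw [Tf_zero, Tf_zero]
    | succ k' => rw [Tf, Tf, ih k' _ (by omega) (by omega)]

theorem T_eq (n : ℕ) : T n = xor (T (n / 2)) (n % 2 = 1) := by
  cases n with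
  | zero => rfl
  | succ n => rw [T, Tf, T, Tf_eq n ((n + 1) / 2) _ (by omega) le_rfl]

theorem T0 (b : ℕ) : T (2 * b) = T b := by
  rw [T_eq, show 2 * b / 2 = b by omega, show 2 * b % 2 = 0 by omega]; simp

theorem T1 (b : ℕ) : T (2 * b + 1) = !T b := by
  rw [T_eq, show (2 * b + 1) / 2 = b by omega, show (2 * b + 1) % 2 = 1 by omega]; simp

theorem T_ne (n : ℕ) (hn : n % 2 = 0) : T (n + 1) = !T n := by
  obtain ⟨b, rfl⟩ : ∃ b, n = 2 * b := ⟨n / 2, by omega⟩
  rw [T0, T1]

theorem T3 (s : ℕ) : ¬ (T s = T (s + 1) ∧ T (s + 1) = T (s + 2)) := by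
  rintro ⟨a, b⟩
  by_cases h : s % 2 = 0
  · rw [T_ne s h] at a; simp at a
  · rw [show s + 2 = s + 1 + 1 by ring, T_ne (s + 1) (by omega)] at b; simp at b

theorem T_pf (q : ℕ) : 0 < q → ∀ s, ¬ ∀ i < 2 * q, T (s + i) = T (s + i + q) := by
  induction q using Nat.strong_induction_on with
  | _ q ih =>
    intro hq s H
    by_cases h2 : q % 2 = 0
    · refine ih (q / 2) (by omega) (by omega) ((s + 1) / 2) fun i hi => ?_
      have := H (2 * ((s + 1) / 2 + i) - s) (by omega)
      rwa [show s + (2 * ((s + 1) / 2 + i) - s) = 2 * ((s + 1) / 2 + i) by omega,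
        show 2 * ((s + 1) / 2 + i) + q = 2 * ((s + 1) / 2 + i + q / 2) by omega, T0, T0] at this
    by_cases h1 : q = 1
    · subst h1
      exact T3 s ⟨H 0 (by omega), H 1 (by omega)⟩
    have alt : ∀ i < 5, T (s + i + 1) = !T (s + i) := by
      intro i hi
      by_cases e : (s + i) % 2 = 0
      · exact T_ne _ e
      · rw [H i (by omega), add_assoc s, H (i + 1) (by omega), ← T_ne _ (by omega)]
        congr 1; ring
    have two : ∀ i < 4, T (s + i + 2) = T (s + i) := by
      intro i hi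
      have a := alt i (by omega)
      have b := alt (i + 1) (by omega)
      rw [← add_assoc, a] at b
      simpa using b
    refine T3 ((s + 1) / 2) ⟨?_, ?_⟩
    · rw [← T0, ← T0 (_ + 1)]
      have := two (2 * ((s + 1) / 2) - s) (by omega)
      convert this.symm using 2 <;> omega
    · rw [← T0, ← T0 (_ + 2)]
      have := two (2 * ((s + 1) / 2) + 2 - s) (by omega)
      convert this.symm using 2 <;> omega

theorem T_cov (j : ℕ) (hj : 2 ≤ j) : ∃ a q, 0 < q ∧ j = a + 1 * q ∧
    ∀ i ≤ 0, T (a + i + q) = T (a + i) := by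
  cases e : T j
  · refine ⟨0, j, by omega, by omega, fun i hi => ?_⟩
    obtain rfl : i = 0 := by omega
    simpa using e.trans (by decide)
  · refine ⟨1, j - 1, by omega, by omega, fun i hi => ?_⟩
    obtain rfl : i = 0 := by omega
    rw [show 1 + 0 + (j - 1) = j by omega, e]; decide

end Pool.Agent.H.MP_fb4a47_lc
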